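import Pool.Agent.Run7.h105.PC.Defs

/-!
Project PC (helper105), piece BAD2.
-/

set_option autoImplicit false

open Filter Topology Set MeasureTheory
open scoped ENNReal

namespace Pool.Agent.Run7.h896.PC

open Pool.Agent.Run7.h105.PC

/-- BAD2. -/
theorem t_BAD2 (hBOX : S_BOX) (hBAD : S_BAD) : S_BAD2 := by
  intro K hK hKc p hp
  have h1 := hBOX K hK hKc
  have h2 : Tendsto (fun k : ℕ => k * p) atTop atTop :=
    tendsto_atTop_mono (fun k => Nat.le_mul_of_pos_right k hp) tendsto_id
  have h3 : Tendsto (fun k : ℕ => ((cells K (k * p)).card : ℝ) / ((k * p : ℕ) : ℝ)) atTop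
      (𝓝 (volume K).toReal) := h1.comp h2
  have h4 : Tendsto (fun k : ℕ => (p : ℝ) * (((cells K k).card : ℝ) / k) -
      (p : ℝ) * (((cells K (k * p)).card : ℝ) / ((k * p : ℕ) : ℝ))) atTop (𝓝 0) := by
    have := (h1.const_mul (p : ℝ)).sub (h3.const_mul (p : ℝ))
    rwa [sub_self] at this
  refine squeeze_zero' (Eventually.of_forall fun k => by positivity) ?_ h4
  filter_upwards [eventually_ge_atTop 1] with k hk
  have h5 : ((cells K (k * p)).card : ℝ) + (bad K k p).card ≤ p * (cells K k).card := by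
    exact_mod_cast hBAD K k p hk hp
  have hk0 : (0 : ℝ) < k := by exact_mod_cast hk
  have hp0 : (0 : ℝ) < p := by exact_mod_cast hp
  have h6 : (p : ℝ) * (((cells K k).card : ℝ) / k) -
      (p : ℝ) * (((cells K (k * p)).card : ℝ) / ((k * p : ℕ) : ℝ)) =
      ((p : ℝ) * (cells K k).card - (cells K (k * p)).card) / k := by
    push_cast
    field_simp
  rw [h6, div_le_div_iff_of_pos_right hk0]
  linarith

end Pool.Agent.Run7.h896.PC
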