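import Pool.Agent.Run7.h105.PC.Defs

/-!
Project PC (helper105), piece UP.
-/

set_option autoImplicit false

open Filter Topology Set MeasureTheory
open scoped ENNReal

namespace Pool.Agent.Run7.h896.PC

open Pool.Agent.Run7.h105.PC

/-- UP. -/
theorem t_UP (hUPK : S_UPK) (hBOX : S_BOX) (hBAD2 : S_BAD2) : S_UP := by
  intro s c hs hc K hK hKc ε hε
  obtain ⟨hc0, hcl, hcu⟩ := hc
  set lam := (volume K).toReal with hlam
  have hlam0 : 0 ≤ lam := ENNReal.toReal_nonneg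
  have hlam1 : lam ≤ 1 := by
    have h1 : volume K ≤ volume (Icc (0 : ℝ) 1) := measure_mono hK
    rw [Real.volume_Icc, sub_zero, ENNReal.ofReal_one] at h1
    have h2 := ENNReal.toReal_mono ENNReal.one_ne_top h1
    rwa [ENNReal.toReal_one] at h2
  set η := min (ε / 4) 1 with hη
  have hη0 : 0 < η := by positivity
  have hη1 : η ≤ 1 := min_le_right _ _
  have hη4 : η ≤ ε / 4 := min_le_left _ _
  obtain ⟨m, hm, hGm⟩ := hcu η hη0
  have hm1 : (1 : ℝ) ≤ m := by exact_mod_cast hm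
  obtain ⟨r, hr1, hr⟩ : ∃ r : ℕ, 1 ≤ r ∧ (c + 1) / r ≤ ε / 4 := by
    obtain ⟨r, hr⟩ := exists_nat_ge ((c + 1) / (ε / 4))
    refine ⟨r + 1, by omega, ?_⟩
    rw [div_le_iff₀ (by positivity)] at hr ⊢
    push_cast
    nlinarith
  have hr1' : (1 : ℝ) ≤ r := by exact_mod_cast hr1
  have hri : 1 / (r : ℝ) ≤ 1 := by
    rw [div_le_one (by linarith)]
    exact hr1'
  have hri0 : 0 < 1 / (r : ℝ) := by positivity
  set L := (G s m : ℝ) * lam with hL
  have hL0 : 0 ≤ L := by positivity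
  have hlim : Tendsto (fun k : ℕ => (G s m : ℝ) * (((cells K k).card : ℝ) / k) +
      ((m * r ^ 2 : ℕ) : ℝ) * (((bad K k (m * r ^ 2)).card : ℝ) / k)) atTop
      (𝓝 ((G s m : ℝ) * lam + ((m * r ^ 2 : ℕ) : ℝ) * 0)) :=
    ((hBOX K hK hKc).const_mul _).add ((hBAD2 K hK hKc (m * r ^ 2)
      (Nat.mul_pos hm (pow_pos hr1 2))).const_mul _)
  rw [mul_zero, add_zero] at hlim
  set η2 := min 1 (ε / 8) with hη2
  have hη20 : 0 < η2 := by positivity
  have hη21 : η2 ≤ 1 := min_le_left _ _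
  have hη28 : η2 ≤ ε / 8 := min_le_right _ _
  obtain ⟨k0, hk0⟩ := eventually_atTop.1 (hlim.eventually_le_const
    (show (G s m : ℝ) * lam < L + η2 by rw [hL]; linarith))
  refine ⟨min (ε / (4 * (L + 1))) (1 / (m * (k0 + 1))), by positivity, fun δ hδ hδ0 => ?_⟩
  have hδ1 : δ < ε / (4 * (L + 1)) := lt_of_lt_of_le hδ0 (min_le_left _ _)
  have hδ2 : δ < 1 / (m * (k0 + 1)) := lt_of_lt_of_le hδ0 (min_le_right _ _)
  have hm0 : (0 : ℝ) < m := by linarith
  set k := ⌈(1 + 1 / (r : ℝ)) / (m * δ)⌉₊ with hk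
  have hle : (1 + 1 / (r : ℝ)) / (m * δ) ≤ k := Nat.le_ceil _
  have hlt : (k : ℝ) < (1 + 1 / (r : ℝ)) / (m * δ) + 1 := Nat.ceil_lt_add_one (by positivity)
  have hkpos : 1 ≤ k := Nat.one_le_ceil_iff.2 (by positivity)
  have hkp : (0 : ℝ) < k := by exact_mod_cast hkpos
  have hkk0 : k0 ≤ k := by
    have h1 : (k0 : ℝ) < k := by
      rw [lt_div_iff₀ (by positivity)] at hδ2
      rw [div_le_iff₀ (by positivity)] at hle
      by_contra hcon
      push Not at hcon
      have h2 : (k : ℝ) * (m * δ) ≤ k0 * (m * δ) :=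
        mul_le_mul_of_nonneg_right hcon (by positivity)
      have h3 := mul_pos hm0 hδ
      have h4 : δ * (m * (k0 + 1)) = k0 * (m * δ) + m * δ := by ring
      linarith
    exact_mod_cast h1.le
  obtain ⟨X, hX1, hX2, hX3⟩ := hUPK s (by linarith) K hK m r k hm hr1 hkpos
  refine ⟨X, hX1, ?_, ?_⟩
  · refine Cov.mono (by linarith) ?_ hX2
    rw [div_le_iff₀ (by positivity)] at hle
    rw [mul_one_div, div_le_iff₀ (by positivity)]
    linarith
  · have h1 : (X.card : ℝ) ≤ (G s m : ℝ) * (cells K k).card +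
        ((m * r ^ 2 : ℕ) : ℝ) * (bad K k (m * r ^ 2)).card := by exact_mod_cast hX3
    have h2 := hk0 k hkk0
    have h3 : (G s m : ℝ) * (((cells K k).card : ℝ) / k) +
        ((m * r ^ 2 : ℕ) : ℝ) * (((bad K k (m * r ^ 2)).card : ℝ) / k) =
        ((G s m : ℝ) * (cells K k).card +
        ((m * r ^ 2 : ℕ) : ℝ) * (bad K k (m * r ^ 2)).card) / k := by ring
    rw [h3, div_le_iff₀ hkp] at h2
    have h4 : (X.card : ℝ) ≤ (L + η2) * k := h1.trans h2
    have h5 : (k : ℝ) * δ ≤ (1 + 1 / (r : ℝ)) / m + δ := by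
      have h6 : (k : ℝ) * δ ≤ ((1 + 1 / (r : ℝ)) / (m * δ) + 1) * δ :=
        mul_le_mul_of_nonneg_right hlt.le hδ.le
      have h7 : ((1 + 1 / (r : ℝ)) / (m * δ) + 1) * δ = (1 + 1 / (r : ℝ)) / m + δ := by
        field_simp
      linarith
    have h8 : (X.card : ℝ) * δ ≤ (L + η2) * ((1 + 1 / (r : ℝ)) / m + δ) := by
      calc (X.card : ℝ) * δ ≤ (L + η2) * k * δ := mul_le_mul_of_nonneg_right h4 hδ.le
        _ = (L + η2) * (k * δ) := by ring
        _ ≤ _ := mul_le_mul_of_nonneg_left h5 (by positivity)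
    have h9 : L * ((1 + 1 / (r : ℝ)) / m) ≤ c * lam + ε / 2 := by
      have e1 : L * ((1 + 1 / (r : ℝ)) / m) = ((G s m : ℝ) / m) * lam * (1 + 1 / (r : ℝ)) := by
        rw [hL]; ring
      have e2 : (G s m : ℝ) / m ≤ c + η := by
        rw [div_le_iff₀ hm0]
        exact hGm
      have e3 : ((G s m : ℝ) / m) * lam * (1 + 1 / (r : ℝ)) ≤ (c + η) * lam * (1 + 1 / (r : ℝ)) := by
        gcongr
      have e4 : (c + η) * lam * (1 + 1 / (r : ℝ)) =
          c * lam + η * lam + (c + η) * lam * (1 / (r : ℝ)) := by ring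
      have e5 : η * lam ≤ ε / 4 :=
        (mul_le_of_le_one_right hη0.le hlam1).trans hη4
      have e6 : (c + η) * lam * (1 / (r : ℝ)) ≤ (c + 1) / r := by
        have : (c + η) * lam ≤ c + 1 :=
          (mul_le_of_le_one_right (by linarith) hlam1).trans (by linarith)
        calc (c + η) * lam * (1 / (r : ℝ)) ≤ (c + 1) * (1 / (r : ℝ)) :=
              mul_le_mul_of_nonneg_right this hri0.le
          _ = (c + 1) / r := by ring
      rw [e1]
      linarith
    have h10 : η2 * ((1 + 1 / (r : ℝ)) / m) ≤ ε / 4 := by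
      have h13 : (1 + 1 / (r : ℝ)) / m ≤ 2 := by
        rw [div_le_iff₀ hm0]
        linarith
      have h14 : η2 * ((1 + 1 / (r : ℝ)) / m) ≤ η2 * 2 := mul_le_mul_of_nonneg_left h13 hη20.le
      linarith
    have h11 : (L + η2) * δ ≤ ε / 4 := by
      have e1 : (L + η2) * δ ≤ (L + 1) * δ := by
        apply mul_le_mul_of_nonneg_right _ hδ.le
        linarith
      rw [lt_div_iff₀ (by positivity)] at hδ1
      linarith
    have h12 : (L + η2) * ((1 + 1 / (r : ℝ)) / m + δ) = L * ((1 + 1 / (r : ℝ)) / m) +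
        η2 * ((1 + 1 / (r : ℝ)) / m) + (L + η2) * δ := by ring
    linarith

end Pool.Agent.Run7.h896.PC
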